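import Pool.Agent.Lib.P901b45u.Red

/-!
MP_901b45_co, partial answer to Q1 (Frank): complementary vertices for integer 2-polymatroids
of excess at most two, for almost uniform (paving like) ones, and for those without integral
points `u`, `2 - u` of the next level.
-/

set_option autoImplicit false

namespace Pool.Agent.Results.MP_901b45_co.AlmostUniform

open Finset

theorem result :
    ∀ (n : ℕ) (f : Finset (Fin n) → ℤ),
      f ∅ = 0 →
      Monotone f →
      (∀ A B : Finset (Fin n), f (A ∪ B) + f (A ∩ B) ≤ f A + f B) →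
      (∀ e : Fin n, f {e} ≤ 2) →
      (∀ A : Finset (Fin n), (A.card : ℤ) ≤ f A) →
      (∃ t : ℕ, 1 ≤ t ∧
        (t = 1 ∨ ∀ A : Finset (Fin n),
          (A.card : ℤ) + min (A.card : ℤ) (min (Aᶜ.card : ℤ) t) ≤ f A) ∧
        ((∀ A : Finset (Fin n), f A ≤ A.card + t + 1) ∨
          ¬ ∃ u : Fin n → ℤ, (∀ i, 0 ≤ u i ∧ u i ≤ 2) ∧
            (∀ A : Finset (Fin n), ∑ i ∈ A, u i ≤ f A) ∧
            (∀ A : Finset (Fin n), ∑ i ∈ A, (2 - u i) ≤ f A) ∧
            (univ.filter (fun i => u i = 2)).card = t + 1 ∧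
            (univ.filter (fun i => u i = 0)).card = t + 1)) →
      ∃ v ∈ Set.extremePoints ℝ
          {x : Fin n → ℝ | (∀ i, 0 ≤ x i) ∧
            ∀ A : Finset (Fin n), ∑ i ∈ A, x i ≤ (f A : ℝ)},
        (∀ i, 0 ≤ 2 - v i) ∧
          ∀ A : Finset (Fin n), ∑ i ∈ A, (2 - v i) ≤ (f A : ℝ) := by
  intro n f h0 hmono hsub htwo hone hcls
  refine Pool.Agent.P901b45u.main_of_cls n f h0 hmono hsub htwo hone ?_
  have hc : ∀ A : Finset (Fin n), univ \ A = Aᶜ := fun A => (compl_eq_univ_sdiff A).symm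
  obtain ⟨t, ht, h1, h2⟩ := hcls
  refine ⟨t, ht, ?_, ?_⟩
  · rcases h1 with h1 | h1
    · exact Or.inl h1
    · right
      intro A _
      rw [hc]
      exact h1 A
  · rcases h2 with h2 | h2
    · exact Or.inl fun A _ => h2 A
    · right
      intro u h3 h4 h5 h6 h7 h8
      exact h2 ⟨u, fun i => ⟨h3 i (mem_univ i), h4 i (mem_univ i)⟩,
        fun A => h5 A (subset_univ A), fun A => h6 A (subset_univ A), h7, h8⟩

end Pool.Agent.Results.MP_901b45_co.AlmostUniform
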