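import Pool.Agent.Lib.P901b45d.Final

/-!
Frank's question for 2-polymatroids all of whose minors with eight or more pairwise incomparable
elements are almost uniform.
-/

set_option autoImplicit false

namespace Pool.Agent.Results.MP_901b45_co.DominanceWidth

open Pool.Agent.P901b45d

/-- Let `f` be an integer 2-polymatroid on `n` elements whose polytope contains the all-ones vector,
and let `g = trunc f`, that is `g S = min (f S) n`. Consider the minors `q S = g (A ∪ S) - g A` of
`g` on sets `I` disjoint from `A` with `q S ≥ |S|` for all `S ⊆ I` and `q I = |I|`. Suppose that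
every such minor with at least eight elements, no two of them comparable in the minor, is almost
uniform. Then the polytope of `f` has a vertex `v` such that `2 - v` is in it. -/
theorem result :
    ∀ (n : ℕ) (f : Finset (Fin n) → ℤ),
      f ∅ = 0 →
      Monotone f →
      (∀ A B : Finset (Fin n), f (A ∪ B) + f (A ∩ B) ≤ f A + f B) →
      (∀ e : Fin n, f {e} ≤ 2) →
      (∀ A : Finset (Fin n), (A.card : ℤ) ≤ f A) →
      (∀ A I : Finset (Fin n), Disjoint A I → 8 ≤ I.card →
        (∀ S ⊆ I, (S.card : ℤ) ≤ minor (trunc f) A S) →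
        minor (trunc f) A I = I.card →
        (∀ a ∈ I, ∀ b ∈ I, a ≠ b → ¬ Below I (minor (trunc f) A) a b) →
        Almost I (minor (trunc f) A)) →
      ∃ v ∈ Set.extremePoints ℝ
          {x : Fin n → ℝ | (∀ i, 0 ≤ x i) ∧
            ∀ A : Finset (Fin n), ∑ i ∈ A, x i ≤ (f A : ℝ)},
        (∀ i, 0 ≤ 2 - v i) ∧
          ∀ A : Finset (Fin n), ∑ i ∈ A, (2 - v i) ≤ (f A : ℝ) :=
  fun n f h0 hm hs h2 h1 hc => Pool.Agent.P901b45d.final n f h0 hm hs h2 h1 hc

end Pool.Agent.Results.MP_901b45_co.DominanceWidth
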