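import Pool.Agent.Lib.P901b45e.Bridge

/-!
Frank's question holds for all integer 2-polymatroids with `f(S) ≤ |S| + 2` for all `S`.
-/

namespace Pool.Agent.Results.MP_901b45_co.SmallExcess

/-- Let `f` be an integer 2-polymatroid whose polytope contains the all-ones vector, and let
`f(S) ≤ |S| + 2` for all `S`. Then the polytope has a vertex `v` such that `2 - v` is in it. -/
theorem result :
    ∀ (n : ℕ) (f : Finset (Fin n) → ℤ),
      f ∅ = 0 →
      Monotone f →
      (∀ A B : Finset (Fin n), f (A ∪ B) + f (A ∩ B) ≤ f A + f B) →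
      (∀ e : Fin n, f {e} ≤ 2) →
      (∀ A : Finset (Fin n), (A.card : ℤ) ≤ f A) →
      (∀ A : Finset (Fin n), f A ≤ (A.card : ℤ) + 2) →
      ∃ v ∈ Set.extremePoints ℝ
          {x : Fin n → ℝ | (∀ i, 0 ≤ x i) ∧
            ∀ A : Finset (Fin n), ∑ i ∈ A, x i ≤ (f A : ℝ)},
        (∀ i, 0 ≤ 2 - v i) ∧
          ∀ A : Finset (Fin n), ∑ i ∈ A, (2 - v i) ≤ (f A : ℝ) := by
  intro n f h0 hm hs h2 h1 hex
  obtain ⟨x, hx⟩ := P901b45e.main n Finset.univ (fun A => f A - A.card) (by simp)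
    (P901b45e.sub_of h0 hm hs h2 h1) (fun A _ => by have := hex A; linarith)
  exact P901b45e.extreme_of_sol h0 hs h2 hx

end Pool.Agent.Results.MP_901b45_co.SmallExcess
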