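import Pool.Agent.Lib.P901b45.Main

/-
Complementary vertices for the sum of the rank functions of two strongly base
orderable matroids.
-/

namespace Pool.Agent.Results.MP_901b45_co.SumOfOrderable

open Pool.Agent.Lib.P901b45

/-- Let `M₁`, `M₂` be strongly base orderable matroids on a finite set, let `f`
be the sum of their rank functions, and suppose that the all-ones vector lies in
the polytope `P(f)`. Then `P(f)` has a vertex `v` such that `2 - v` is also a
vertex of `P(f)`. Moreover, every integral vector `u` with `u` and `2 - u` in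
`P(f)` which has the smallest possible number of entries equal to one among such
vectors is a vertex, and so is `2 - u`. -/
theorem result {α : Type*} [Fintype α] (M₁ M₂ : Matroid α)
    (h₁ : StronglyBaseOrderable M₁) (h₂ : StronglyBaseOrderable M₂)
    (hone : (fun _ : α => (1 : ℝ)) ∈ Poly (rankSum M₁ M₂)) :
    (∃ v ∈ Set.extremePoints ℝ (Poly (rankSum M₁ M₂)),
      (fun e => 2 - v e) ∈ Set.extremePoints ℝ (Poly (rankSum M₁ M₂))) ∧
    ∀ u : α → ℕ,
      (fun e => (u e : ℝ)) ∈ Poly (rankSum M₁ M₂) →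
      (fun e => 2 - (u e : ℝ)) ∈ Poly (rankSum M₁ M₂) →
      (∀ w : α → ℕ, (fun e => (w e : ℝ)) ∈ Poly (rankSum M₁ M₂) →
        (fun e => 2 - (w e : ℝ)) ∈ Poly (rankSum M₁ M₂) →
        (Finset.univ.filter (fun e => u e = 1)).card ≤
          (Finset.univ.filter (fun e => w e = 1)).card) →
      (fun e => (u e : ℝ)) ∈ Set.extremePoints ℝ (Poly (rankSum M₁ M₂)) ∧
      (fun e => 2 - (u e : ℝ)) ∈ Set.extremePoints ℝ (Poly (rankSum M₁ M₂)) := by
  classical
  have hgood : ∀ w : α → ℕ, Good M₁ M₂ w → (fun e => (w e : ℝ)) ∈ Poly (rankSum M₁ M₂) ∧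
      (fun e => 2 - (w e : ℝ)) = (fun e => ((2 - w e : ℕ) : ℝ)) ∧
      (fun e => 2 - (w e : ℝ)) ∈ Poly (rankSum M₁ M₂) := by
    intro w hw
    have h3 : (fun e => 2 - (w e : ℝ)) = (fun e => ((2 - w e : ℕ) : ℝ)) := by
      funext e
      rw [Nat.cast_sub (hw.1 e)]
      norm_num
    refine ⟨⟨fun e => Nat.cast_nonneg _, fun S => ?_⟩, h3, ?_⟩
    · have := hw.2.1 S
      show ∑ e ∈ S, (w e : ℝ) ≤ _
      exact_mod_cast this
    · rw [h3]
      refine ⟨fun e => Nat.cast_nonneg _, fun S => ?_⟩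
      have := hw.2.2 S
      show ∑ e ∈ S, ((2 - w e : ℕ) : ℝ) ≤ _
      exact_mod_cast this
  have hgood' : ∀ w : α → ℕ, (fun e => (w e : ℝ)) ∈ Poly (rankSum M₁ M₂) →
      (fun e => 2 - (w e : ℝ)) ∈ Poly (rankSum M₁ M₂) → Good M₁ M₂ w := by
    intro w hw hw'
    have h2 : ∀ e, w e ≤ 2 := by
      intro e
      have h : (0 : ℝ) ≤ 2 - (w e : ℝ) := hw'.1 e
      have h' : (w e : ℝ) ≤ 2 := by linarith
      exact_mod_cast h'
    have h3 : (fun e => 2 - (w e : ℝ)) = (fun e => ((2 - w e : ℕ) : ℝ)) := by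
      funext e
      rw [Nat.cast_sub (h2 e)]
      norm_num
    refine ⟨h2, fun S => ?_, fun S => ?_⟩
    · have h : ∑ e ∈ S, (w e : ℝ) ≤ (rankSum M₁ M₂ S : ℝ) := hw.2 S
      exact_mod_cast h
    · rw [h3] at hw'
      have h : ∑ e ∈ S, ((2 - w e : ℕ) : ℝ) ≤ (rankSum M₁ M₂ S : ℝ) := hw'.2 S
      exact_mod_cast h
  have hopt : ∀ w : α → ℕ, Opt M₁ M₂ w →
      (fun e => (w e : ℝ)) ∈ Set.extremePoints ℝ (Poly (rankSum M₁ M₂)) ∧
      (fun e => 2 - (w e : ℝ)) ∈ Set.extremePoints ℝ (Poly (rankSum M₁ M₂)) := by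
    intro w hw
    refine ⟨hw.extreme h₁ h₂, ?_⟩
    rw [(hgood w hw.1).2.1]
    exact hw.compl.extreme h₁ h₂
  constructor
  · have hcard : ∀ S : Finset α, S.card ≤ rankSum M₁ M₂ S := by
      intro S
      have h : ∑ e ∈ S, (1 : ℝ) ≤ (rankSum M₁ M₂ S : ℝ) := hone.2 S
      rw [Finset.sum_const, nsmul_eq_mul, mul_one] at h
      exact_mod_cast h
    obtain ⟨u, hu⟩ := exists_opt hcard
    exact ⟨_, (hopt u hu).1, (hopt u hu).2⟩
  · intro u hu hu' hmin
    apply hopt u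
    refine ⟨hgood' u hu hu', fun w hw => ?_⟩
    exact hmin w (hgood w hw).1 (hgood w hw).2.2

end Pool.Agent.Results.MP_901b45_co.SumOfOrderable
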